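import Pool.Agent.N949.AD.StmB

/-!
# AD/CHR: characteristic function of two binomials
-/

set_option autoImplicit false

namespace Pool.Agent.N457.AD

open Finset Pool.Agent.N949.AD

theorem norm_le {y : ℝ} (hy0 : 1 / 5 ≤ y) (hy1 : y ≤ 5) (t m : ℝ) (hm : m ≤ Real.sin t ^ 2) :
    ‖1 + (y : ℂ) * Complex.exp ((2 * t : ℝ) * Complex.I)‖ ≤
      Real.exp (-(5 / 18 * m)) * (1 + y) := by
  have hy : 0 < y := by linarith
  obtain ⟨z, hz⟩ : ∃ z : ℂ, z = (y : ℂ) * Complex.exp ((2 * t : ℝ) * Complex.I) := ⟨_, rfl⟩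
  rw [← hz]
  have h3 : ‖1 + z‖ ^ 2 = (1 + y) ^ 2 - 4 * y * Real.sin t ^ 2 := by
    rw [Complex.sq_norm, Complex.normSq_apply, hz, Complex.add_re, Complex.add_im,
      Complex.re_ofReal_mul, Complex.im_ofReal_mul, Complex.exp_ofReal_mul_I_re,
      Complex.exp_ofReal_mul_I_im, Complex.one_re, Complex.one_im]
    have h4 : Real.cos (2 * t) = 1 - 2 * Real.sin t ^ 2 := by
      rw [Real.cos_two_mul, Real.cos_sq']
      ring
    have h5 := Real.sin_sq_add_cos_sq (2 * t)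
    have h6 : (1 + y * Real.cos (2 * t)) * (1 + y * Real.cos (2 * t)) +
        (0 + y * Real.sin (2 * t)) * (0 + y * Real.sin (2 * t)) =
        1 + 2 * y * Real.cos (2 * t) +
          y ^ 2 * (Real.sin (2 * t) ^ 2 + Real.cos (2 * t) ^ 2) := by ring
    rw [h6, h5, h4]
    ring
  have h7 : 0 ≤ Real.sin t ^ 2 := sq_nonneg _
  have h8 : ‖1 + z‖ ≤ Real.exp (-(5 / 18 * Real.sin t ^ 2)) * (1 + y) := by
    refine abs_le_of_sq_le_sq' ?_ (by positivity) |>.2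
    rw [h3, mul_pow, ← Real.exp_nat_mul]
    have h9 : 1 - 5 / 9 * Real.sin t ^ 2 ≤
        Real.exp (((2 : ℕ) : ℝ) * (-(5 / 18 * Real.sin t ^ 2))) := by
      have := Real.add_one_le_exp (((2 : ℕ) : ℝ) * (-(5 / 18 * Real.sin t ^ 2)))
      push_cast at this ⊢
      linarith
    have h10 : (1 - 5 / 9 * Real.sin t ^ 2) * (1 + y) ^ 2 ≤
        Real.exp (((2 : ℕ) : ℝ) * (-(5 / 18 * Real.sin t ^ 2))) * (1 + y) ^ 2 :=
      mul_le_mul_of_nonneg_right h9 (by positivity)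
    refine le_trans ?_ h10
    have h11 : 5 / 9 * (1 + y) ^ 2 ≤ 4 * y := by nlinarith
    nlinarith
  refine h8.trans (mul_le_mul_of_nonneg_right (Real.exp_le_exp.2 ?_) (by positivity))
  linarith

/-- AD/CHR -/
theorem chr : Pool.Agent.N949.AD.S_CHR := by
  intro y hy0 hy1 α β φ m N M hm1 hm2
  have hy : 0 < y := by linarith
  obtain ⟨z, hz⟩ : ∃ z : ℂ, z = (y : ℂ) * Complex.exp ((2 * (α + β) : ℝ) * Complex.I) := ⟨_, rfl⟩
  obtain ⟨w, hw⟩ : ∃ w : ℂ, w = (y : ℂ) * Complex.exp ((2 * (α - β) : ℝ) * Complex.I) := ⟨_, rfl⟩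
  obtain ⟨c, hc⟩ : ∃ c : ℂ, c = Complex.exp ((φ : ℝ) * Complex.I) := ⟨_, rfl⟩
  have h1 : c * ((1 + z) ^ N * (1 + w) ^ M) = ∑ j ∈ range (N + 1), ∑ i ∈ range (M + 1),
      ((((N.choose j : ℝ) * (M.choose i : ℝ) * y ^ (j + i) : ℝ)) : ℂ) *
      Complex.exp ((α * ((2 * ((j : ℤ) + i) : ℤ) : ℝ) + β * ((2 * ((j : ℤ) - i) : ℤ) : ℝ) + φ : ℝ) *
        Complex.I) := by
    rw [add_comm 1 z, add_comm 1 w, add_pow, add_pow, sum_mul_sum, mul_sum]
    refine sum_congr rfl fun j _ => ?_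
    rw [mul_sum]
    refine sum_congr rfl fun i _ => ?_
    rw [one_pow, mul_one, one_pow, mul_one, hz, hw, mul_pow, mul_pow, ← Complex.exp_nat_mul,
      ← Complex.exp_nat_mul, hc]
    have e1 : Complex.exp ((α * ((2 * ((j : ℤ) + i) : ℤ) : ℝ) +
        β * ((2 * ((j : ℤ) - i) : ℤ) : ℝ) + φ : ℝ) * Complex.I) =
        Complex.exp ((φ : ℝ) * Complex.I) *
          (Complex.exp ((j : ℂ) * (((2 * (α + β) : ℝ) : ℂ) * Complex.I)) *
            Complex.exp ((i : ℂ) * (((2 * (α - β) : ℝ) : ℂ) * Complex.I))) := by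
      rw [← Complex.exp_add, ← Complex.exp_add]
      congr 1
      push_cast
      ring
    rw [e1]
    push_cast
    ring
  have h2 : bb y N M (fun z => Real.cos (α * z.1 + β * z.2 + φ)) =
      (c * ((1 + z) ^ N * (1 + w) ^ M)).re := by
    rw [h1, Complex.re_sum, bb]
    refine sum_congr rfl fun j _ => ?_
    rw [Complex.re_sum]
    refine sum_congr rfl fun i _ => ?_
    rw [Complex.re_ofReal_mul, Complex.exp_ofReal_mul_I_re]
  rw [h2]
  refine (Complex.abs_re_le_norm _).trans ?_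
  rw [norm_mul, norm_mul, norm_pow, norm_pow, hc, Complex.norm_exp_ofReal_mul_I, one_mul]
  have h3 := norm_le hy0 hy1 (α + β) m hm1
  have h4 := norm_le hy0 hy1 (α - β) m hm2
  rw [← hz] at h3
  rw [← hw] at h4
  calc ‖1 + z‖ ^ N * ‖1 + w‖ ^ M
      ≤ (Real.exp (-(5 / 18 * m)) * (1 + y)) ^ N * (Real.exp (-(5 / 18 * m)) * (1 + y)) ^ M :=
        mul_le_mul (pow_le_pow_left₀ (norm_nonneg _) h3 N)
          (pow_le_pow_left₀ (norm_nonneg _) h4 M) (by positivity) (by positivity)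
    _ = _ := by
        rw [← pow_add, mul_pow, ← Real.exp_nat_mul]
        congr 2
        ring

end Pool.Agent.N457.AD
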